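import Pool.Agent.Helper59.TW.ClsBase

/-!
# CLL: the Legendre curve
-/

set_option autoImplicit false

namespace Pool.Agent.Helper22.TW

open Pool.Agent.Helper14.BSC Polynomial

theorem cll_finset {α : Type} (R : Finset α) (a : α) (h : ∀ v ∈ R, v = a) : R = ∅ ∨ R = {a} := by
  classical
  exact Finset.subset_singleton_iff.1 (fun v hv => Finset.mem_singleton.2 (h v hv))

theorem st_CLL (hKSQ : ST_KSQ) (hNSQ : ST_NSQ) (hPAR : ST_PAR) (hTRB : ST_TRB) : ST_CLL := by
  intro F k Ω _ _ _ _ _ _ _ _ _ t ht hfg D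
  classical
  set N := NN D (KS F k Ω) with hN
  set T : Ω := algebraMap k Ω t with hT
  have hTm : T ∈ N := N.algebraMap_mem t
  have hPe : ClsP (F := F) (Ω := Ω) t (∅ : Finset (Acl F Ω)) = 1 := by simp [ClsP]
  have hP0 : ClsP (F := F) (Ω := Ω) t {(0 : Acl F Ω)} = T := by simp [ClsP, hT]
  have hP1 : ClsP (F := F) (Ω := Ω) t {(1 : Acl F Ω)} = T - 1 := by simp [ClsP, hT]
  have h01 : (0 : Acl F Ω) ≠ 1 := zero_ne_one
  have hP01 : ClsP (F := F) (Ω := Ω) t {(0 : Acl F Ω), 1} = T * (T - 1) := by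
    unfold ClsP
    rw [Finset.prod_pair h01]
    simp [hT]
  have hT0 : T ≠ 0 := by rw [← hP0]; exact ClsP_ne_zero hTRB t ht _
  have hT1 : T - 1 ≠ 0 := by rw [← hP1]; exact ClsP_ne_zero hTRB t ht _
  have hTm1 : T - 1 ∈ N := sub_mem hTm (one_mem _)
  have qT : ClsQ F D (T ^ 2) := ClsQ.sq hTm hT0
  have qT1 : ClsQ F D ((T - 1) ^ 2) := ClsQ.sq hTm1 hT1
  have qm : ClsQ F D (-1) := ClsQ.const D (isAlgebraic_one.neg) (by norm_num)
  have c0 : ((eN D (KS F k Ω) t (![0, 1, X] : Fin 3 → F[X]) 0 : NN D (KS F k Ω)) : Ω) = 0 := by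
    have : ((eN D (KS F k Ω) t (![0, 1, X] : Fin 3 → F[X]) 0 : NN D (KS F k Ω)) : Ω) =
      algebraMap k Ω (aeval t (0 : F[X])) := rfl
    rw [this]; simp
  have c1 : ((eN D (KS F k Ω) t (![0, 1, X] : Fin 3 → F[X]) 1 : NN D (KS F k Ω)) : Ω) = 1 := by
    have : ((eN D (KS F k Ω) t (![0, 1, X] : Fin 3 → F[X]) 1 : NN D (KS F k Ω)) : Ω) =
      algebraMap k Ω (aeval t (1 : F[X])) := rfl
    rw [this]; simp
  have c2 : ((eN D (KS F k Ω) t (![0, 1, X] : Fin 3 → F[X]) 2 : NN D (KS F k Ω)) : Ω) = T := by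
    have : ((eN D (KS F k Ω) t (![0, 1, X] : Fin 3 → F[X]) 2 : NN D (KS F k Ω)) : Ω) =
      algebraMap k Ω (aeval t (X : F[X])) := rfl
    rw [this]; simp [hT]
  constructor
  · intro x y h hy
    obtain ⟨R, hq, hR, hsy⟩ := cls_data hKSQ hNSQ hPAR hTRB F k Ω t ht hfg D _ x y h hy
    have q0 : ClsQ F D ((x : Ω) * ClsP t (R 0)) := by
      have := hq 0
      have e : ((x - eN D (KS F k Ω) t (![0, 1, X] : Fin 3 → F[X]) 0 : NN D (KS F k Ω)) : Ω) = x := by
        show (x : Ω) - _ = _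
        rw [c0, sub_zero]
      rwa [e] at this
    have q1 : ClsQ F D (((x : Ω) - 1) * ClsP t (R 1)) := by
      have := hq 1
      have e : ((x - eN D (KS F k Ω) t (![0, 1, X] : Fin 3 → F[X]) 1 : NN D (KS F k Ω)) : Ω) = x - 1 := by
        show (x : Ω) - _ = _
        rw [c1]
      rwa [e] at this
    have q2 : ClsQ F D (((x : Ω) - T) * ClsP t (R 2)) := by
      have := hq 2
      have e : ((x - eN D (KS F k Ω) t (![0, 1, X] : Fin 3 → F[X]) 2 : NN D (KS F k Ω)) : Ω) = x - T := by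
        show (x : Ω) - _ = _
        rw [c2]
      rwa [e] at this
    have hR0 : R 0 = ∅ ∨ R 0 = {(0 : Acl F Ω)} := by
      apply cll_finset
      intro v hv
      obtain ⟨j, hj, hj2⟩ := hR 0 v hv
      fin_cases j
      · exact absurd rfl hj
      · exfalso
        have : aeval (v : Ω) ((0 : F[X]) - 1) = 0 := hj2
        simp at this
      · have : aeval (v : Ω) ((0 : F[X]) - X) = 0 := hj2
        apply Subtype.ext
        simpa using this
    have hR1 : R 1 = ∅ ∨ R 1 = {(1 : Acl F Ω)} := by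
      apply cll_finset
      intro v hv
      obtain ⟨j, hj, hj2⟩ := hR 1 v hv
      fin_cases j
      · exfalso
        have : aeval (v : Ω) ((1 : F[X]) - 0) = 0 := hj2
        simp at this
      · exact absurd rfl hj
      · have : aeval (v : Ω) ((1 : F[X]) - X) = 0 := hj2
        apply Subtype.ext
        simp only [map_sub, map_one, aeval_X, sub_eq_zero] at this
        exact this.symm
    -- goal in terms of squares in Ω
    have key : ∀ i j : Fin 3, ClsQ F D (((x - eN D (KS F k Ω) t (![0, 1, X] : Fin 3 → F[X]) j :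
        NN D (KS F k Ω)) : Ω) * ((eN D (KS F k Ω) t (![0, 1, X] : Fin 3 → F[X]) i -
          eN D (KS F k Ω) t (![0, 1, X] : Fin 3 → F[X]) j : NN D (KS F k Ω)) : Ω)) →
        IsSquare ((x - eN D (KS F k Ω) t (![0, 1, X] : Fin 3 → F[X]) j) *
          (eN D (KS F k Ω) t (![0, 1, X] : Fin 3 → F[X]) i -
          eN D (KS F k Ω) t (![0, 1, X] : Fin 3 → F[X]) j)) := by
      intro i j hij
      exact cls_isSquare hij
    have d : ∀ i j : Fin 3, ((eN D (KS F k Ω) t (![0, 1, X] : Fin 3 → F[X]) i -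
          eN D (KS F k Ω) t (![0, 1, X] : Fin 3 → F[X]) j : NN D (KS F k Ω)) : Ω) =
        ((eN D (KS F k Ω) t (![0, 1, X] : Fin 3 → F[X]) i : NN D (KS F k Ω)) : Ω) -
        ((eN D (KS F k Ω) t (![0, 1, X] : Fin 3 → F[X]) j : NN D (KS F k Ω)) : Ω) := fun _ _ => rfl
    have dx : ∀ j : Fin 3, ((x - eN D (KS F k Ω) t (![0, 1, X] : Fin 3 → F[X]) j :
        NN D (KS F k Ω)) : Ω) = (x : Ω) -
        ((eN D (KS F k Ω) t (![0, 1, X] : Fin 3 → F[X]) j : NN D (KS F k Ω)) : Ω) := fun _ => rfl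
    rcases hR0 with h0 | h0
    · rcases hR1 with h1 | h1
      · -- both empty
        left
        have h2 : R 2 = ∅ := by rw [← hsy, h0, h1]; simp
        rw [h0, hPe, mul_one] at q0
        rw [h1, hPe, mul_one] at q1
        rw [h2, hPe, mul_one] at q2
        intro i
        apply cls_isSquare
        rw [dx]
        fin_cases i
        · show ClsQ F D ((x : Ω) - ((eN D (KS F k Ω) t (![0, 1, X] : Fin 3 → F[X]) 0 :
            NN D (KS F k Ω)) : Ω))
          rw [c0, sub_zero]; exact q0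
        · show ClsQ F D ((x : Ω) - ((eN D (KS F k Ω) t (![0, 1, X] : Fin 3 → F[X]) 1 :
            NN D (KS F k Ω)) : Ω))
          rw [c1]; exact q1
        · show ClsQ F D ((x : Ω) - ((eN D (KS F k Ω) t (![0, 1, X] : Fin 3 → F[X]) 2 :
            NN D (KS F k Ω)) : Ω))
          rw [c2]; exact q2
      · -- R 0 empty, R 1 = {1}, R 2 = {1}
        right
        have h2 : R 2 = {(1 : Acl F Ω)} := by rw [← hsy, h0, h1]; simp
        rw [h0, hPe, mul_one] at q0
        rw [h1, hP1] at q1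
        rw [h2, hP1] at q2
        refine ⟨1, fun j hj => ?_⟩
        apply key
        rw [d, dx]
        fin_cases j
        · show ClsQ F D (((x : Ω) - ((eN D (KS F k Ω) t (![0, 1, X] : Fin 3 → F[X]) 0 :
            NN D (KS F k Ω)) : Ω)) * (((eN D (KS F k Ω) t (![0, 1, X] : Fin 3 → F[X]) 1 :
            NN D (KS F k Ω)) : Ω) - ((eN D (KS F k Ω) t (![0, 1, X] : Fin 3 → F[X]) 0 :
            NN D (KS F k Ω)) : Ω)))
          rw [c0, c1, sub_zero, sub_zero, mul_one]; exact q0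
        · exact absurd rfl hj
        · show ClsQ F D (((x : Ω) - ((eN D (KS F k Ω) t (![0, 1, X] : Fin 3 → F[X]) 2 :
            NN D (KS F k Ω)) : Ω)) * (((eN D (KS F k Ω) t (![0, 1, X] : Fin 3 → F[X]) 1 :
            NN D (KS F k Ω)) : Ω) - ((eN D (KS F k Ω) t (![0, 1, X] : Fin 3 → F[X]) 2 :
            NN D (KS F k Ω)) : Ω)))
          rw [c1, c2]
          have e : ((x : Ω) - T) * (1 - T) = ((x : Ω) - T) * (T - 1) * (-1) := by ring
          rw [e]
          exact q2.mul qm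
    · rcases hR1 with h1 | h1
      · -- R 0 = {0}, R 1 empty, R 2 = {0}
        right
        have h2 : R 2 = {(0 : Acl F Ω)} := by rw [← hsy, h0, h1]; simp
        rw [h0, hP0] at q0
        rw [h1, hPe, mul_one] at q1
        rw [h2, hP0] at q2
        refine ⟨0, fun j hj => ?_⟩
        apply key
        rw [d, dx]
        fin_cases j
        · exact absurd rfl hj
        · show ClsQ F D (((x : Ω) - ((eN D (KS F k Ω) t (![0, 1, X] : Fin 3 → F[X]) 1 :
            NN D (KS F k Ω)) : Ω)) * (((eN D (KS F k Ω) t (![0, 1, X] : Fin 3 → F[X]) 0 :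
            NN D (KS F k Ω)) : Ω) - ((eN D (KS F k Ω) t (![0, 1, X] : Fin 3 → F[X]) 1 :
            NN D (KS F k Ω)) : Ω)))
          rw [c0, c1]
          have e : ((x : Ω) - 1) * (0 - 1) = ((x : Ω) - 1) * (-1) := by ring
          rw [e]
          exact q1.mul qm
        · show ClsQ F D (((x : Ω) - ((eN D (KS F k Ω) t (![0, 1, X] : Fin 3 → F[X]) 2 :
            NN D (KS F k Ω)) : Ω)) * (((eN D (KS F k Ω) t (![0, 1, X] : Fin 3 → F[X]) 0 :
            NN D (KS F k Ω)) : Ω) - ((eN D (KS F k Ω) t (![0, 1, X] : Fin 3 → F[X]) 2 :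
            NN D (KS F k Ω)) : Ω)))
          rw [c0, c2]
          have e : ((x : Ω) - T) * (0 - T) = ((x : Ω) - T) * T * (-1) := by ring
          rw [e]
          exact q2.mul qm
      · -- R 0 = {0}, R 1 = {1}, R 2 = {0, 1}
        right
        have h2 : R 2 = {(0 : Acl F Ω), 1} := by
          rw [← hsy, h0, h1]
          ext a
          simp only [Finset.mem_symmDiff, Finset.mem_singleton, Finset.mem_insert]
          constructor
          · rintro (⟨h, -⟩ | ⟨h, -⟩)
            · exact Or.inl h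
            · exact Or.inr h
          · rintro (h | h)
            · exact Or.inl ⟨h, fun h' => h01 (h ▸ h')⟩
            · exact Or.inr ⟨h, fun h' => h01 (h' ▸ h)⟩
        rw [h0, hP0] at q0
        rw [h1, hP1] at q1
        rw [h2, hP01] at q2
        refine ⟨2, fun j hj => ?_⟩
        apply key
        rw [d, dx]
        fin_cases j
        · show ClsQ F D (((x : Ω) - ((eN D (KS F k Ω) t (![0, 1, X] : Fin 3 → F[X]) 0 :
            NN D (KS F k Ω)) : Ω)) * (((eN D (KS F k Ω) t (![0, 1, X] : Fin 3 → F[X]) 2 :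
            NN D (KS F k Ω)) : Ω) - ((eN D (KS F k Ω) t (![0, 1, X] : Fin 3 → F[X]) 0 :
            NN D (KS F k Ω)) : Ω)))
          rw [c0, c2, sub_zero, sub_zero]
          exact q0
        · show ClsQ F D (((x : Ω) - ((eN D (KS F k Ω) t (![0, 1, X] : Fin 3 → F[X]) 1 :
            NN D (KS F k Ω)) : Ω)) * (((eN D (KS F k Ω) t (![0, 1, X] : Fin 3 → F[X]) 2 :
            NN D (KS F k Ω)) : Ω) - ((eN D (KS F k Ω) t (![0, 1, X] : Fin 3 → F[X]) 1 :
            NN D (KS F k Ω)) : Ω)))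
          rw [c1, c2]
          exact q1
        · exact absurd rfl hj
  · have nT : ¬ ClsQ F D T := by
      intro hq
      have h3 := cls_eq_of_mul hTRB hNSQ t ht D (∅ : Finset (Acl F Ω)) {(0 : Acl F Ω)} (by
        rw [hPe, hP0, one_mul]; exact hq)
      exact Finset.singleton_ne_empty _ h3.symm
    have nT1 : ¬ ClsQ F D (T - 1) := by
      intro hq
      have h3 := cls_eq_of_mul hTRB hNSQ t ht D (∅ : Finset (Acl F Ω)) {(1 : Acl F Ω)} (by
        rw [hPe, hP1, one_mul]; exact hq)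
      exact Finset.singleton_ne_empty _ h3.symm
    intro i
    fin_cases i
    · refine ⟨2, by decide, fun hsq => nT ?_⟩
      have e : ((eN D (KS F k Ω) t (![0, 1, X] : Fin 3 → F[X]) 0 -
          eN D (KS F k Ω) t (![0, 1, X] : Fin 3 → F[X]) 2 : NN D (KS F k Ω)) : Ω) = -1 * T := by
        show _ - _ = _
        rw [c0, c2]; ring
      have h1 := cls_of_isSquare hsq (by
        show ((eN D (KS F k Ω) t (![0, 1, X] : Fin 3 → F[X]) 0 -
          eN D (KS F k Ω) t (![0, 1, X] : Fin 3 → F[X]) 2 : NN D (KS F k Ω)) : Ω) ≠ 0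
        rw [e]; exact mul_ne_zero (by norm_num) hT0)
      have h2 : ClsQ F D (-1 * T) := e ▸ h1
      exact qm.of_mul h2
    · refine ⟨2, by decide, fun hsq => nT1 ?_⟩
      have e : ((eN D (KS F k Ω) t (![0, 1, X] : Fin 3 → F[X]) 1 -
          eN D (KS F k Ω) t (![0, 1, X] : Fin 3 → F[X]) 2 : NN D (KS F k Ω)) : Ω) = -1 * (T - 1) := by
        show _ - _ = _
        rw [c1, c2]; ring
      have h1 := cls_of_isSquare hsq (by
        show ((eN D (KS F k Ω) t (![0, 1, X] : Fin 3 → F[X]) 1 -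
          eN D (KS F k Ω) t (![0, 1, X] : Fin 3 → F[X]) 2 : NN D (KS F k Ω)) : Ω) ≠ 0
        rw [e]; exact mul_ne_zero (by norm_num) hT1)
      have h2 : ClsQ F D (-1 * (T - 1)) := e ▸ h1
      exact qm.of_mul h2
    · refine ⟨0, by decide, fun hsq => nT ?_⟩
      have e : ((eN D (KS F k Ω) t (![0, 1, X] : Fin 3 → F[X]) 2 -
          eN D (KS F k Ω) t (![0, 1, X] : Fin 3 → F[X]) 0 : NN D (KS F k Ω)) : Ω) = T := by
        show _ - _ = _
        rw [c0, c2]; ring
      have h1 := cls_of_isSquare hsq (by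
        show ((eN D (KS F k Ω) t (![0, 1, X] : Fin 3 → F[X]) 2 -
          eN D (KS F k Ω) t (![0, 1, X] : Fin 3 → F[X]) 0 : NN D (KS F k Ω)) : Ω) ≠ 0
        rw [e]; exact hT0)
      exact e ▸ h1

end Pool.Agent.Helper22.TW
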