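import Pool.Agent.Helper59.TW.ClsBase

/-!
# CLT: twists of constant curves
-/

set_option autoImplicit false

namespace Pool.Agent.Helper22.TW

open Pool.Agent.Helper14.BSC Polynomial

theorem clt_finset {α : Type} (R : Finset α) (a : α) (h : ∀ v ∈ R, v = a) : R = ∅ ∨ R = {a} := by
  classical
  exact Finset.subset_singleton_iff.1 (fun v hv => Finset.mem_singleton.2 (h v hv))

theorem st_CLT (hKSQ : ST_KSQ) (hNSQ : ST_NSQ) (hPAR : ST_PAR) (hTRB : ST_TRB) : ST_CLT := by
  intro F k Ω _ _ _ _ _ _ _ _ _ t ht hfg D β hβ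
  classical
  have hT0 : algebraMap k Ω t ≠ 0 := by
    have := ClsP_ne_zero (Ω := Ω) hTRB t ht {(0 : Acl F Ω)}
    simpa [ClsP] using this
  have hTm : algebraMap k Ω t ∈ NN D (KS F k Ω) := (NN D (KS F k Ω)).algebraMap_mem t
  have hP0 : ClsP (F := F) (Ω := Ω) t {(0 : Acl F Ω)} = algebraMap k Ω t := by simp [ClsP]
  have hPe : ClsP (F := F) (Ω := Ω) t (∅ : Finset (Acl F Ω)) = 1 := by simp [ClsP]
  have hsub : ∀ i j : Fin 3, i ≠ j →
      ClsQ F D (((eN D (KS F k Ω) t (fun i => C (β i) * X) i -
        eN D (KS F k Ω) t (fun i => C (β i) * X) j : NN D (KS F k Ω)) : Ω) * algebraMap k Ω t) := by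
    intro i j hij
    have h1 : ((eN D (KS F k Ω) t (fun i => C (β i) * X) i -
        eN D (KS F k Ω) t (fun i => C (β i) * X) j : NN D (KS F k Ω)) : Ω) =
        algebraMap F Ω (β i - β j) * algebraMap k Ω t := by
      have h2 : ((eN D (KS F k Ω) t (fun i => C (β i) * X) i -
        eN D (KS F k Ω) t (fun i => C (β i) * X) j : NN D (KS F k Ω)) : Ω) =
        algebraMap k Ω (aeval t (C (β i) * X : F[X])) - algebraMap k Ω (aeval t (C (β j) * X : F[X])) :=
        rfl
      rw [h2, ← map_sub]
      have h3 : aeval t (C (β i) * X : F[X]) - aeval t (C (β j) * X : F[X]) =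
          algebraMap F k (β i - β j) * t := by
        simp only [map_mul, aeval_C, aeval_X, map_sub]
        ring
      rw [h3, map_mul, ← IsScalarTower.algebraMap_apply]
    rw [h1]
    have h4 : algebraMap F Ω (β i - β j) * algebraMap k Ω t * algebraMap k Ω t =
      algebraMap F Ω (β i - β j) * algebraMap k Ω t ^ 2 := by ring
    rw [h4]
    refine ClsQ.mul (ClsQ.const D (isAlgebraic_algebraMap _) ?_) (ClsQ.sq hTm hT0)
    rw [Ne, FaithfulSMul.algebraMap_eq_zero_iff, sub_eq_zero]
    exact fun h => hij (hβ h)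
  constructor
  · intro x y h hy
    obtain ⟨R, hq, hR, hsy⟩ := cls_data hKSQ hNSQ hPAR hTRB F k Ω t ht hfg D _ x y h hy
    have hR0 : ∀ i, R i = ∅ ∨ R i = {(0 : Acl F Ω)} := by
      intro i
      apply clt_finset
      intro v hv
      obtain ⟨j, hj, hj2⟩ := hR i v hv
      have h1 : (algebraMap F Ω (β i) - algebraMap F Ω (β j)) * (v : Ω) = 0 := by
        rw [← hj2]
        simp only [map_sub, map_mul, aeval_C, aeval_X]
        ring
      rcases mul_eq_zero.1 h1 with h2 | h2
      · exfalso
        rw [sub_eq_zero] at h2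
        exact hj (hβ ((algebraMap F Ω).injective h2)).symm
      · exact Subtype.ext h2
    have hone : ∀ i, R i = ∅ → ClsQ F D
        ((x - eN D (KS F k Ω) t (fun i => C (β i) * X) i : NN D (KS F k Ω)) : Ω) := by
      intro i hi
      have := hq i
      rwa [hi, hPe, mul_one] at this
    have htwo : ∀ i j, j ≠ i → R j = {(0 : Acl F Ω)} → IsSquare
        ((x - eN D (KS F k Ω) t (fun i => C (β i) * X) j) *
          (eN D (KS F k Ω) t (fun i => C (β i) * X) i - eN D (KS F k Ω) t (fun i => C (β i) * X) j)) := by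
      intro i j hji hj
      apply cls_isSquare
      have h1 := hq j
      rw [hj, hP0] at h1
      have h2 := h1.mul (hsub i j (Ne.symm hji))
      have h3 : ClsQ F D (algebraMap k Ω t ^ 2) := ClsQ.sq hTm hT0
      refine h3.of_mul ?_
      have h4 : ∀ a b c : Ω, a * c * (b * c) = c ^ 2 * (a * b) := by intros; ring
      rw [h4] at h2
      exact h2
    rcases hR0 0 with h0 | h0
    · rcases hR0 1 with h1 | h1
      · left
        have h2 : R 2 = ∅ := by rw [← hsy, h0, h1]; simp
        intro i
        fin_cases i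
        · exact cls_isSquare (hone 0 h0)
        · exact cls_isSquare (hone 1 h1)
        · exact cls_isSquare (hone 2 h2)
      · right
        have h2 : R 2 = {(0 : Acl F Ω)} := by rw [← hsy, h0, h1]; simp
        refine ⟨0, fun j hj => htwo 0 j hj ?_⟩
        fin_cases j
        · exact absurd rfl hj
        · exact h1
        · exact h2
    · rcases hR0 1 with h1 | h1
      · right
        have h2 : R 2 = {(0 : Acl F Ω)} := by rw [← hsy, h0, h1]; simp
        refine ⟨1, fun j hj => htwo 1 j hj ?_⟩
        fin_cases j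
        · exact h0
        · exact absurd rfl hj
        · exact h2
      · right
        refine ⟨2, fun j hj => htwo 2 j hj ?_⟩
        fin_cases j
        · exact h0
        · exact h1
        · exact absurd rfl hj
  · intro i
    have hex : ∃ j : Fin 3, j ≠ i := by
      fin_cases i
      · exact ⟨1, by decide⟩
      · exact ⟨0, by decide⟩
      · exact ⟨0, by decide⟩
    obtain ⟨j, hj⟩ := hex
    refine ⟨j, hj, fun hsq => ?_⟩
    have h1 := hsub i j (Ne.symm hj)
    have h0 : ((eN D (KS F k Ω) t (fun i => C (β i) * X) i -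
        eN D (KS F k Ω) t (fun i => C (β i) * X) j : NN D (KS F k Ω)) : Ω) ≠ 0 :=
      left_ne_zero_of_mul h1.ne_zero
    have h2 := (cls_of_isSquare hsq h0).of_mul h1
    have h3 := cls_eq_of_mul hTRB hNSQ t ht D (∅ : Finset (Acl F Ω)) {(0 : Acl F Ω)} (by
      rw [hPe, hP0, one_mul]; exact h2)
    exact Finset.singleton_ne_empty _ h3.symm

end Pool.Agent.Helper22.TW
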