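import Pool.Agent.Helper22.TW.Stmts

/-!
# Square classes over the constants: common part of `CLT` and `CLL`
-/

set_option autoImplicit false

namespace Pool.Agent.Helper22.TW

open Pool.Agent.Helper14.BSC Polynomial

section

set_option linter.unusedSectionVars false

variable {F k Ω : Type} [Field F] [Field k] [Field Ω] [Algebra F k] [Algebra F Ω] [Algebra k Ω]
  [IsScalarTower F k Ω]

theorem cls_const_mem (D : Sec k Ω) {x : Ω} (hx : IsAlgebraic F x) : x ∈ NN D (KS F k Ω) := by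
  have hk : IsAlgebraic k x := hx.extendScalars (algebraMap F k).injective
  have hmem : x ∈ Acl k Ω := (mem_algebraicClosure_iff).2 hk
  intro g hg
  have h1 : g ⟨x, hmem⟩ = ⟨x, hmem⟩ :=
    hg ⟨x, hmem⟩ (show IsAlgebraic F ((⟨x, hmem⟩ : Acl k Ω) : Ω) from hx)
  have h2 := D.ext g ⟨x, hmem⟩
  rw [h1] at h2
  exact h2

/-- nonzero squares of `NN D (KS F k Ω)`, seen in `Ω` -/
def ClsQ (F : Type) {k Ω : Type} [Field F] [Field k] [Field Ω] [Algebra F Ω] [Algebra k Ω]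
    (D : Sec k Ω) (x : Ω) : Prop :=
  ∃ z ∈ NN D (KS F k Ω), z ≠ 0 ∧ x = z ^ 2

theorem ClsQ.mul {D : Sec k Ω} {x y : Ω} (hx : ClsQ F D x) (hy : ClsQ F D y) : ClsQ F D (x * y) := by
  obtain ⟨z, hz, hz0, rfl⟩ := hx
  obtain ⟨w, hw, hw0, rfl⟩ := hy
  exact ⟨z * w, mul_mem hz hw, mul_ne_zero hz0 hw0, by ring⟩

theorem ClsQ.ne_zero {D : Sec k Ω} {x : Ω} (hx : ClsQ F D x) : x ≠ 0 := by
  obtain ⟨z, hz, hz0, rfl⟩ := hx
  exact pow_ne_zero 2 hz0

theorem ClsQ.of_mul {D : Sec k Ω} {x y : Ω} (hx : ClsQ F D x) (hxy : ClsQ F D (x * y)) :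
    ClsQ F D y := by
  have h0 := hx.ne_zero
  obtain ⟨z, hz, hz0, hxz⟩ := hx
  obtain ⟨w, hw, hw0, hw1⟩ := hxy
  refine ⟨w * z⁻¹, mul_mem hw (inv_mem hz), mul_ne_zero hw0 (inv_ne_zero hz0), ?_⟩
  have : y = (x * y) * x⁻¹ := by field_simp
  rw [this, hw1, hxz]
  field_simp

theorem ClsQ.sq {D : Sec k Ω} {z : Ω} (hz : z ∈ NN D (KS F k Ω)) (hz0 : z ≠ 0) :
    ClsQ F D (z ^ 2) := ⟨z, hz, hz0, rfl⟩

theorem ClsQ.const [IsAlgClosed Ω] (D : Sec k Ω) {x : Ω} (hx : IsAlgebraic F x) (hx0 : x ≠ 0) :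
    ClsQ F D x := by
  obtain ⟨z, hz⟩ := IsAlgClosed.exists_pow_nat_eq x (n := 2) (by norm_num)
  have hzalg : IsAlgebraic F z := by
    have : IsAlgebraic F (z ^ 2) := hz ▸ hx
    exact this.of_pow (by norm_num)
  refine ⟨z, cls_const_mem D hzalg, ?_, hz.symm⟩
  rintro rfl
  apply hx0
  rw [← hz]; simp

/-- the product of the linear factors -/
noncomputable def ClsP {F k Ω : Type} [Field F] [Field k] [Field Ω] [Algebra F Ω] [Algebra k Ω]
    (t : k) (R : Finset (Acl F Ω)) : Ω := ∏ v ∈ R, (algebraMap k Ω t - (v : Ω))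

theorem cls_coe_mem (D : Sec k Ω) (v : Acl F Ω) : (v : Ω) ∈ NN D (KS F k Ω) :=
  cls_const_mem D ((mem_algebraicClosure_iff).1 v.2)

theorem ClsP_mem (D : Sec k Ω) (t : k) (R : Finset (Acl F Ω)) : ClsP t R ∈ NN D (KS F k Ω) :=
  prod_mem fun v _ => sub_mem ((NN D (KS F k Ω)).algebraMap_mem t) (cls_coe_mem D v)

open Classical in
theorem ClsP_symm (t : k) (R R' : Finset (Acl F Ω)) :
    ClsP t R * ClsP t R' = ClsP t (symmDiff R R') * ClsP t (R ∩ R') ^ 2 := by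
  unfold ClsP
  have h1 : R = (R \ R') ∪ (R ∩ R') := (Finset.sdiff_union_inter R R').symm
  have h2 : R' = (R' \ R) ∪ (R ∩ R') := by
    rw [Finset.inter_comm]; exact (Finset.sdiff_union_inter R' R).symm
  have d1 : Disjoint (R \ R') (R ∩ R') := by
    rw [Finset.disjoint_left]; intro a ha hb
    simp only [Finset.mem_sdiff, Finset.mem_inter] at ha hb
    exact ha.2 hb.2
  have d2 : Disjoint (R' \ R) (R ∩ R') := by
    rw [Finset.disjoint_left]; intro a ha hb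
    simp only [Finset.mem_sdiff, Finset.mem_inter] at ha hb
    exact ha.2 hb.1
  have d3 : Disjoint (R \ R') (R' \ R) := by
    rw [Finset.disjoint_left]; intro a ha hb
    simp only [Finset.mem_sdiff] at ha hb
    exact ha.2 hb.1
  have e1 : ∏ v ∈ R, (algebraMap k Ω t - (v : Ω)) =
      (∏ v ∈ R \ R', (algebraMap k Ω t - (v : Ω))) * ∏ v ∈ R ∩ R', (algebraMap k Ω t - (v : Ω)) := by
    conv_lhs => rw [h1]
    rw [Finset.prod_union d1]
  have e2 : ∏ v ∈ R', (algebraMap k Ω t - (v : Ω)) =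
      (∏ v ∈ R' \ R, (algebraMap k Ω t - (v : Ω))) * ∏ v ∈ R ∩ R', (algebraMap k Ω t - (v : Ω)) := by
    conv_lhs => rw [h2]
    rw [Finset.prod_union d2]
  have e3 : ∏ v ∈ symmDiff R R', (algebraMap k Ω t - (v : Ω)) =
      (∏ v ∈ R \ R', (algebraMap k Ω t - (v : Ω))) * ∏ v ∈ R' \ R, (algebraMap k Ω t - (v : Ω)) := by
    have : symmDiff R R' = (R \ R') ∪ (R' \ R) := rfl
    rw [this, Finset.prod_union d3]
  rw [e1, e2, e3]
  ring

theorem ClsP_ne_zero (hTRB : ST_TRB) (t : k) (ht : Gen F k t) (R : Finset (Acl F Ω)) :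
    ClsP t R ≠ 0 := by
  unfold ClsP
  refine Finset.prod_ne_zero_iff.2 fun v _ h => ?_
  have := hTRB F k Ω t ht (X - C v) (X_sub_C_ne_zero v)
  apply this
  simp only [map_sub, aeval_X, aeval_C]
  exact h

open Classical in
/-- the classes of `ClsP R` are distinct -/
theorem cls_eq_of_mul (hTRB : ST_TRB) (hNSQ : ST_NSQ) [CharZero F] [IsAlgClosed Ω] (t : k)
    (ht : Gen F k t) (D : Sec k Ω) (R R' : Finset (Acl F Ω))
    (h : ClsQ F D (ClsP t R * ClsP t R')) : R = R' := by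
  rw [ClsP_symm] at h
  have h1 : ClsQ F D (ClsP t (R ∩ R') ^ 2) := ClsQ.sq (ClsP_mem D t _) (ClsP_ne_zero hTRB t ht _)
  rw [mul_comm] at h
  obtain ⟨z, hz, hz0, hz1⟩ := h1.of_mul h
  have h2 := hNSQ F k Ω t ht D (symmDiff R R') z hz hz1
  exact symmDiff_eq_bot.1 h2

open Classical in
theorem cls_eq_symm (hTRB : ST_TRB) (hNSQ : ST_NSQ) [CharZero F] [IsAlgClosed Ω] (t : k)
    (ht : Gen F k t) (D : Sec k Ω) (R₀ R₁ R₂ : Finset (Acl F Ω))
    (h : ClsQ F D (ClsP t R₀ * ClsP t R₁ * ClsP t R₂)) : symmDiff R₀ R₁ = R₂ := by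
  apply cls_eq_of_mul hTRB hNSQ t ht D
  rw [ClsP_symm] at h
  have h1 : ClsQ F D (ClsP t (R₀ ∩ R₁) ^ 2) := ClsQ.sq (ClsP_mem D t _) (ClsP_ne_zero hTRB t ht _)
  refine h1.of_mul ?_
  have : ClsP t (symmDiff R₀ R₁) * ClsP t (R₀ ∩ R₁) ^ 2 * ClsP t R₂ =
    ClsP t (R₀ ∩ R₁) ^ 2 * (ClsP t (symmDiff R₀ R₁) * ClsP t R₂) := by ring
  rwa [this] at h

theorem cls_isSquare {D : Sec k Ω} {x : NN D (KS F k Ω)} (h : ClsQ F D (x : Ω)) : IsSquare x := by
  obtain ⟨z, hz, -, hz1⟩ := h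
  exact ⟨⟨z, hz⟩, Subtype.ext (by rw [hz1]; simp [sq])⟩

theorem cls_of_isSquare {D : Sec k Ω} {x : NN D (KS F k Ω)} (h : IsSquare x) (hx : (x : Ω) ≠ 0) :
    ClsQ F D (x : Ω) := by
  obtain ⟨z, hz⟩ := h
  refine ⟨z, z.2, ?_, ?_⟩
  · intro h0; apply hx; rw [hz]; simp [h0]
  · rw [hz]; simp [sq]

end

/-- the data extracted from a point with `y ≠ 0` -/
theorem cls_data (hKSQ : ST_KSQ) (hNSQ : ST_NSQ) (hPAR : ST_PAR) (hTRB : ST_TRB)
    (F k Ω : Type) [Field F] [Field k] [Field Ω] [Algebra F k] [Algebra F Ω] [Algebra k Ω]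
    [IsScalarTower F k Ω] [CharZero F] [IsAlgClosed Ω] (t : k) (ht : Gen F k t)
    (hfg : (⊤ : IntermediateField ℚ F).FG) (D : Sec k Ω) (e : Fin 3 → F[X])
    (x y : NN D (KS F k Ω)) (h : Eqn (eN D (KS F k Ω) t e) x y) (hy : y ≠ 0) :
    ∃ R : Fin 3 → Finset (Acl F Ω),
      (∀ i, ClsQ F D (((x - eN D (KS F k Ω) t e i : NN D (KS F k Ω)) : Ω) * ClsP t (R i))) ∧
      (∀ i, ∀ v ∈ R i, ∃ j, j ≠ i ∧ aeval (v : Ω) (e i - e j) = 0) ∧
      (open Classical in symmDiff (R 0) (R 1) = R 2) := by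
  classical
  have hcoe : ∀ i, ((eN D (KS F k Ω) t e i : NN D (KS F k Ω)) : Ω) = aeval (algebraMap k Ω t) (e i) := by
    intro i
    rw [aeval_algebraMap_apply]
    rfl
  have hx0 : ∀ i, ((x - eN D (KS F k Ω) t e i : NN D (KS F k Ω)) : Ω) ≠ 0 := by
    intro i h0
    have h1 : x - eN D (KS F k Ω) t e i = 0 := Subtype.ext h0
    apply hy
    have h2 : y ^ 2 = 0 := by
      rw [h]
      fin_cases i
      · simp only [Fin.zero_eta] at h1; rw [h1]; ring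
      · simp only [Fin.mk_one] at h1; rw [h1]; ring
      · simp only [Fin.reduceFinMk] at h1; rw [h1]; ring
    exact pow_eq_zero_iff (two_ne_zero) |>.1 h2
  have hE : Eqn (fun i => aeval (algebraMap k Ω t) (e i)) (x : Ω) (y : Ω) := by
    unfold Eqn
    have h1 := congrArg (Subtype.val : NN D (KS F k Ω) → Ω) h
    simp only [← hcoe]
    exact h1
  have hch : ∀ i, ∃ R : Finset (Acl F Ω), ∃ z ∈ NN D (KS F k Ω), z ≠ 0 ∧
      ((x - eN D (KS F k Ω) t e i : NN D (KS F k Ω)) : Ω) =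
        (∏ v ∈ R, (algebraMap k Ω t - (v : Ω))) * z ^ 2 := fun i =>
    hKSQ F k Ω t ht D _ (x - eN D (KS F k Ω) t e i).2 (hx0 i)
  choose R z hzm hz0 hxz using hch
  have hq : ∀ i, ClsQ F D (((x - eN D (KS F k Ω) t e i : NN D (KS F k Ω)) : Ω) * ClsP t (R i)) := by
    intro i
    rw [hxz i]
    refine ⟨ClsP t (R i) * z i, mul_mem (ClsP_mem D t _) (hzm i),
      mul_ne_zero (ClsP_ne_zero hTRB t ht _) (hz0 i), ?_⟩
    unfold ClsP
    ring
  refine ⟨R, hq, ?_, ?_⟩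
  · intro i
    refine hPAR F k Ω t ht hfg D e x y (z i) x.2 y.2 (hzm i) (hz0 i) hE i (R i) ?_
    rw [← hxz i, ← hcoe i]
    rfl
  · apply cls_eq_symm hTRB hNSQ t ht D
    have h3 : ClsQ F D ((y : Ω) ^ 2) := ClsQ.sq y.2 (fun h0 => hy (Subtype.ext h0))
    refine h3.of_mul ?_
    have h4 := ((hq 0).mul (hq 1)).mul (hq 2)
    have h5 : (y : Ω) ^ 2 = ((x - eN D (KS F k Ω) t e 0 : NN D (KS F k Ω)) : Ω) *
      ((x - eN D (KS F k Ω) t e 1 : NN D (KS F k Ω)) : Ω) *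
      ((x - eN D (KS F k Ω) t e 2 : NN D (KS F k Ω)) : Ω) :=
      congrArg (Subtype.val : NN D (KS F k Ω) → Ω) h
    rw [h5]
    have h6 : ∀ a b c a' b' c' : Ω, a * a' * (b * b') * (c * c') = a * b * c * (a' * b' * c') := by
      intros; ring
    rwa [h6] at h4

end Pool.Agent.Helper22.TW
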